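import Pool.Agent.H16.ORS.W

/-! # MP_5182ad_lc, row POL: polynomial bounds as powers of 2 -/

open Polynomial Finset
open Pool.ORB (Hp Tp Np Sp)

namespace Pool.ORS

private theorem ev_mono (A : ℕ[X]) {x y : ℕ} (h : x ≤ y) : A.eval x ≤ A.eval y := by
  induction A using Polynomial.induction_on' with
  | add p q hp hq =>
    rw [Polynomial.eval_add, Polynomial.eval_add]
    exact Nat.add_le_add hp hq
  | monomial n a =>
    rw [Polynomial.eval_monomial, Polynomial.eval_monomial]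
    exact Nat.mul_le_mul_left a (Nat.pow_le_pow_left h n)

private theorem ev_pow (A : ℕ[X]) : ∃ c : ℕ, 1 ≤ c ∧ ∀ y ≥ 2, A.eval y ≤ y ^ c := by
  induction A using Polynomial.induction_on' with
  | add p q hp hq =>
    obtain ⟨a, ha, hpa⟩ := hp
    obtain ⟨b, hb, hqb⟩ := hq
    refine ⟨max a b + 1, by omega, fun y hy => ?_⟩
    rw [Polynomial.eval_add]
    have h1 : y ^ a ≤ y ^ max a b := Nat.pow_le_pow_right (by omega) (le_max_left _ _)
    have h2 : y ^ b ≤ y ^ max a b := Nat.pow_le_pow_right (by omega) (le_max_right _ _)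
    calc p.eval y + q.eval y ≤ y ^ max a b + y ^ max a b :=
          Nat.add_le_add ((hpa y hy).trans h1) ((hqb y hy).trans h2)
      _ = y ^ max a b * 2 := by ring
      _ ≤ y ^ max a b * y := Nat.mul_le_mul_left _ hy
      _ = y ^ (max a b + 1) := by rw [pow_succ]
  | monomial n a =>
    refine ⟨a + n + 1, by omega, fun y hy => ?_⟩
    rw [Polynomial.eval_monomial]
    have h1 : a ≤ y ^ a := (Nat.lt_two_pow_self).le.trans (Nat.pow_le_pow_left hy a)
    calc a * y ^ n ≤ y ^ a * y ^ n := Nat.mul_le_mul_right _ h1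
      _ = y ^ (a + n) := by rw [pow_add]
      _ ≤ y ^ (a + n + 1) := Nat.pow_le_pow_right (by omega) (by omega)

theorem pol_row : POLStmt := by
  intro f ℓ P r cl hC hcl
  obtain ⟨hmono, hle, -⟩ := hC
  obtain ⟨c1, hc1, hr⟩ := ev_pow r
  set Q : ℕ[X] := P.comp (5 * X + 2) + X + 1 with hQ
  have eQ : ∀ y : ℕ, Q.eval y = P.eval (5 * y + 2) + y + 1 := by
    intro y
    rw [hQ]
    simp only [Polynomial.eval_add, Polynomial.eval_mul, Polynomial.eval_comp,
      Polynomial.eval_ofNat, Polynomial.eval_one, Polynomial.eval_X]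
  set H : ℕ[X] := X + 2 with hH
  set T : ℕ[X] := 4 * X + 4 * (X + 2) * (X + 3) with hT
  have eH : ∀ k : ℕ, H.eval k = Hp k := by
    intro k; rw [hH]
    simp only [Polynomial.eval_add, Polynomial.eval_ofNat, Polynomial.eval_X, Hp]
  have eT : ∀ k : ℕ, T.eval k = Tp k := by
    intro k; rw [hT]
    simp only [Polynomial.eval_add, Polynomial.eval_mul, Polynomial.eval_ofNat,
      Polynomial.eval_X, Tp]
  set G : ℕ[X] := 16 * H * T ^ 2 with hG
  set S : ℕ[X] := T * H + (T * (2 + X + (X + 1) * (X + 2)) + 1) with hS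
  have eG : ∀ k : ℕ, G.eval k = 16 * Hp k * (Tp k) ^ 2 := by
    intro k; rw [hG]
    simp only [Polynomial.eval_mul, Polynomial.eval_pow, Polynomial.eval_ofNat, eH, eT]
  have eS : ∀ k : ℕ, S.eval k = Sp k := by
    intro k; rw [hS]
    simp only [Polynomial.eval_add, Polynomial.eval_mul, Polynomial.eval_ofNat,
      Polynomial.eval_one, Polynomial.eval_X, eH, eT, Sp, Np]
  obtain ⟨c2, hc2, hG2⟩ := ev_pow (G.comp Q)
  obtain ⟨c3, hc3, hS3⟩ := ev_pow (S.comp Q)
  refine ⟨max c1 (max c2 c3), fun n hn => ?_⟩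
  set C := max c1 (max c2 c3) with hCdef
  have hC1 : c1 ≤ C := le_max_left _ _
  have hC2 : c2 ≤ C := (le_max_left _ _).trans (le_max_right _ _)
  have hC3 : c3 ≤ C := (le_max_right _ _).trans (le_max_right _ _)
  set y := ℓ (n ^ C) with hy
  have hnC : n ≤ n ^ C := by
    calc n = n ^ 1 := (pow_one n).symm
      _ ≤ n ^ C := Nat.pow_le_pow_right (by omega) (hc1.trans hC1)
  have hny : n ≤ y := hnC.trans (hle _)
  have hy2 : 2 ≤ y := hn.trans hny
  have hcy : cl n ≤ y := (hcl n).trans (hmono ((hr n hn).trans (Nat.pow_le_pow_right (by omega) hC1)))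
  have hpc : pc P cl n ≤ Q.eval y := by
    rw [eQ]
    unfold pc
    have h1 : P.eval (2 * n + 3 * cl n + 2) ≤ P.eval (5 * y + 2) := ev_mono P (by omega)
    omega
  have hylt : y < 2 ^ (Nat.log 2 y + 1) := Nat.lt_pow_succ_log_self (by norm_num) y
  have hpow : ∀ c : ℕ, 1 ≤ c → c ≤ C → y ^ c < 2 ^ (C * (Nat.log 2 y + 1)) := by
    intro c h1 h2
    calc y ^ c < (2 ^ (Nat.log 2 y + 1)) ^ c := Nat.pow_lt_pow_left hylt (by omega)
      _ = 2 ^ ((Nat.log 2 y + 1) * c) := by rw [← pow_mul]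
      _ ≤ 2 ^ (C * (Nat.log 2 y + 1)) := Nat.pow_le_pow_right (by norm_num) (by
          rw [Nat.mul_comm C]
          exact Nat.mul_le_mul_left _ h2)
  constructor
  · rw [← eG]
    have h1 : G.eval (pc P cl n) ≤ (G.comp Q).eval y := by
      rw [Polynomial.eval_comp]
      exact ev_mono G hpc
    exact (h1.trans (hG2 y hy2)).trans (hpow c2 hc2 hC2).le
  · rw [← eS]
    have h1 : S.eval (pc P cl n) ≤ (S.comp Q).eval y := by
      rw [Polynomial.eval_comp]
      exact ev_mono S hpc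
    exact lt_of_le_of_lt (h1.trans (hS3 y hy2)) (hpow c3 hc3 hC3)

end Pool.ORS
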